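import Pool.Agent.R820.SQ.Top

open Set Filter Topology Cardinal

namespace Pool.Agent.R820.SQ

variable {Y₀ : Type}

theorem exists_ultra {A : Set ℕ} (hA : A.Infinite) :
    ∃ u : Ultrafilter ℕ, (u : Filter ℕ) ≤ cofinite ∧ A ∈ u := by
  have h : (cofinite ⊓ 𝓟 A : Filter ℕ).NeBot := Filter.cofinite_inf_principal_neBot_iff.2 hA
  refine ⟨Ultrafilter.of (cofinite ⊓ 𝓟 A), ?_, ?_⟩
  · exact (Ultrafilter.of_le _).trans inf_le_left
  · exact (Ultrafilter.of_le (cofinite ⊓ 𝓟 A)) (Filter.mem_inf_of_right (mem_principal_self A))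

theorem not_finite_of_mem {u : Ultrafilter ℕ} (hu : (u : Filter ℕ) ≤ cofinite) {A : Set ℕ}
    (hA : A ∈ u) : A.Infinite := by
  intro hfin
  have h1 : Aᶜ ∈ u := hu (Filter.mem_cofinite.2 (by rwa [compl_compl]))
  exact (Ultrafilter.compl_mem_iff_notMem.1 h1) hA

/-- the nodes of a branch -/
def br (x : ℕ → Bool) (k : ℕ) : ℕ := Encodable.encode ((List.range k).map x)

theorem br_inj {x y : ℕ → Bool} {k k' : ℕ} (h : br x k = br y k') :
    k = k' ∧ ∀ j < k, x j = y j := by
  have h1 : (List.range k).map x = (List.range k').map y := Encodable.encode_injective h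
  have h2 : k = k' := by
    have := congrArg List.length h1
    simpa using this
  refine ⟨h2, ?_⟩
  subst h2
  intro j hj
  exact (List.map_inj_left.1 h1) j (List.mem_range.2 hj)

theorem uncountable_ultra {B : Set ℕ} (hB : B.Infinite) :
    ¬ {u : Ultrafilter ℕ | (u : Filter ℕ) ≤ cofinite ∧ B ∈ u}.Countable := by
  intro hc
  have h6 : ℵ₀ < #(ℕ → Bool) := by
    have h7 : #(ℕ → Bool) = 𝔠 := by simp
    rw [h7]
    exact Cardinal.aleph0_lt_continuum
  set em := hB.natEmbedding with hem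
  have hinf : ∀ x : ℕ → Bool, (range (fun k => ((em (br x k) : B) : ℕ))).Infinite := by
    intro x
    apply Set.infinite_range_of_injective
    intro k k' h
    have h1 : em (br x k) = em (br x k') := Subtype.ext h
    exact (br_inj (em.injective h1)).1
  choose u hu hu' using fun x => exists_ultra (hinf x)
  have hinj : Function.Injective u := by
    intro x y hxy
    by_contra hne
    obtain ⟨j, hj⟩ := Function.ne_iff.1 hne
    have h1 : range (fun k => ((em (br x k) : B) : ℕ)) ∩ range (fun k => ((em (br y k) : B) : ℕ))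
        ∈ u x := Filter.inter_mem (hu' x) (by rw [hxy]; exact hu' y)
    refine not_finite_of_mem (hu x) h1 ?_
    refine ((Set.finite_le_nat j).image (fun k => ((em (br x k) : B) : ℕ))).subset ?_
    rintro n ⟨⟨k, rfl⟩, ⟨k', hk'⟩⟩
    refine ⟨k, ?_, rfl⟩
    have h2 : em (br y k') = em (br x k) := Subtype.ext hk'
    have h3 := br_inj (em.injective h2)
    by_contra hlt
    simp only [Set.mem_ofPred_eq, not_le] at hlt
    exact hj (h3.2 j (by omega)).symm
  have h3 : ∀ x, u x ∈ {u : Ultrafilter ℕ | (u : Filter ℕ) ≤ cofinite ∧ B ∈ u} := by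
    intro x
    refine ⟨hu x, ?_⟩
    refine Filter.mem_of_superset (hu' x) ?_
    rintro _ ⟨k, rfl⟩
    exact (em (br x k)).2
  have h4 : (univ : Set (ℕ → Bool)).Countable := by
    refine Set.countable_of_injective_of_countable_image (f := u) hinj.injOn ?_
    exact hc.mono (by rintro _ ⟨x, -, rfl⟩; exact h3 x)
  have h5 : #(ℕ → Bool) ≤ ℵ₀ := Cardinal.mk_le_aleph0_iff.2 (Set.countable_univ_iff.1 h4)
  exact absurd h5 (not_le.2 h6)

/-- cluster colours of a sequence -/
def CC (x : ℕ → P Y₀) : Set Info := {τ | ∃ l : P Y₀, l.1.isL ∧ l.1.t = τ ∧ MapClusterPt l atTop x}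

theorem freq_iff {x : ℕ → P Y₀} {l : P Y₀} :
    MapClusterPt l atTop x ↔ ∀ (H : Set (T Y₀)) (a : Set Info) (m : ℕ), Hc H → l.1 ∈ H → a.Finite →
      {n | inU H a m (x n).1}.Infinite := by
  rw [mapClusterPt_iff_frequently]
  constructor
  · intro h H a m h1 h2 h3
    have := h (bas H a m) (mem_nhds_iffP.2 ⟨H, a, m, h1, h2, h3, subset_rfl⟩)
    exact Nat.frequently_atTop_iff_infinite.1 this
  · intro h s hs
    obtain ⟨H, a, m, h1, h2, h3, h4⟩ := mem_nhds_iffP.1 hs
    have h5 := Nat.frequently_atTop_iff_infinite.2 (h H a m h1 h2 h3)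
    exact h5.mono (fun n hn => h4 hn)

theorem cc_const {x : ℕ → P Y₀} (hx : Function.Injective x)
    (ht : ∀ n, (x n).1.t = (x 0).1.t) : ¬ (CC x).Countable := by
  intro hc
  have hx' : Function.Injective (fun n => (x n).1) := fun n m h => hx (Subtype.ext h)
  obtain ⟨e, he, hinf⟩ := MAD_hit (e := fun n => (x n).1) ⟨hx', ht⟩
  set B : Set ℕ := e ⁻¹' (range (fun n => (x n).1)) with hB
  have heinj := (MAD_elig he).1
  have hBinf : B.Infinite := by
    intro hfin
    apply hinf
    refine (hfin.image e).subset ?_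
    rintro _ ⟨⟨n, rfl⟩, h⟩
    exact ⟨n, h, rfl⟩
  apply uncountable_ultra hBinf
  refine Set.countable_of_injective_of_countable_image (f := fun u => Info.lim (e 0).t u) ?_ ?_
  · intro u _ v _ h
    simpa using h
  · refine hc.mono ?_
    rintro _ ⟨u, ⟨hu, hBu⟩, rfl⟩
    have hval : (T.lim e u).valid := by
      refine ⟨he, hu, Filter.mem_of_superset hBu ?_⟩
      rintro n ⟨k, hk⟩
      change (e n).valid
      rw [← hk]
      exact (x k).2
    refine ⟨⟨T.lim e u, hval⟩, trivial, rfl, freq_iff.2 ?_⟩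
    intro H a m hH hl ha
    have h1 : {n | e n ∈ H} ∩ B ∈ u := Filter.inter_mem (hH e u hl) hBu
    have h2 := not_finite_of_mem hu h1
    intro hfin
    apply h2
    have h3 : ({n | e n ∈ H} ∩ B) ⊆ e ⁻¹' ((fun n => (x n).1) '' {n | inU H a m (x n).1}) := by
      rintro n ⟨hn, k, hk⟩
      refine ⟨k, ?_, hk⟩
      apply inU_of_mem
      have hk' : (x k).1 = e n := hk
      rw [hk']
      exact hn
    exact ((hfin.image _).preimage heinj.injOn).subset h3

theorem cc_comp {x : ℕ → P Y₀} {φ : ℕ → ℕ} (hφ : StrictMono φ) : CC (x ∘ φ) ⊆ CC x := by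
  rintro τ ⟨l, h1, h2, h3⟩
  exact ⟨l, h1, h2, h3.of_comp hφ.tendsto_atTop⟩

/-- Signature. -/
def sig : T Y₀ → List ℕ
  | .pt _ => []
  | .fib z _ m => m :: sig z
  | .lim _ _ => []

theorem oes_mem (S : Set ℕ) [Infinite S] [DecidablePred (· ∈ S)] (n : ℕ) :
    Nat.orderEmbeddingOfSet S n ∈ S := by
  have h := mem_range_self (f := Nat.orderEmbeddingOfSet S) n
  rwa [Nat.orderEmbeddingOfSet_range] at h

theorem exists_inj_sub {α : Type*} {f : ℕ → α} (hf : ∀ y, {n | f n = y}.Finite) :
    ∃ φ : ℕ → ℕ, StrictMono φ ∧ Function.Injective (f ∘ φ) := by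
  classical
  set S : Set ℕ := {n | ∀ k < n, f k ≠ f n} with hS
  have hinj : S.InjOn f := by
    intro a ha b hb hab
    rcases lt_trichotomy a b with h | h | h
    · exact absurd hab (hb a h)
    · exact h
    · exact absurd hab.symm (ha b h)
  have himg : range f ⊆ f '' S := by
    rintro _ ⟨n, rfl⟩
    have hex : ∃ k, f k = f n := ⟨n, rfl⟩
    refine ⟨Nat.find hex, ?_, Nat.find_spec hex⟩
    intro k hk hcon
    exact Nat.find_min hex hk (hcon.trans (Nat.find_spec hex))
  have hinf : S.Infinite := by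
    intro hfin
    have h1 : (range f).Finite := (hfin.image f).subset himg
    have h2 : (univ : Set ℕ) ⊆ ⋃ y ∈ range f, {n | f n = y} := by
      intro n _
      exact mem_biUnion (mem_range_self n) rfl
    exact Set.infinite_univ ((h1.biUnion (fun y _ => hf y)).subset h2)
  have : Infinite S := hinf.to_subtype
  have : DecidablePred (· ∈ S) := Classical.decPred _
  refine ⟨Nat.orderEmbeddingOfSet S, (Nat.orderEmbeddingOfSet S).strictMono, ?_⟩
  intro a b hab
  have h1 : Nat.orderEmbeddingOfSet S a ∈ S := oes_mem S a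
  have h2 : Nat.orderEmbeddingOfSet S b ∈ S := oes_mem S b
  exact (Nat.orderEmbeddingOfSet S).injective (hinj h1 h2 hab)

/-- The dichotomy for sequences of points of type `Y`. -/
theorem dichotomy (σ : List ℕ) : ∀ x : ℕ → P Y₀, Function.Injective x → (∀ n, (x n).1.isY) →
    (∀ n, sig (x n).1 = σ) →
    (∃ z : P Y₀, z.1.isY ∧ (sig z.1).length < σ.length ∧ MapClusterPt z atTop x) ∨
      ¬ (CC x).Countable := by
  classical
  induction σ with
  | nil =>
    intro x hx hY hs
    right
    apply cc_const hx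
    have h1 : ∀ n, (x n).1.t = Info.root := by
      intro n
      have h2 := hs n
      have h3 := hY n
      generalize (x n).1 = w at h2 h3
      cases w with
      | pt y => rfl
      | fib z l m => exact absurd h2 (by simp [sig])
      | lim e u => exact absurd h3 (by simp [T.isY])
    intro n
    rw [h1, h1]
  | cons m σ ih =>
    intro x hx hY hs
    have hdec : ∀ n, ∃ z l : P Y₀, (x n).1 = T.fib z.1 l.1 m ∧ z.1.isY ∧ l.1.isL ∧ sig z.1 = σ := by
      intro n
      have h2 := hs n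
      have h3 := hY n
      have h4 := (x n).2
      generalize (x n).1 = w at h2 h3 h4
      cases w with
      | pt y => exact absurd h2 (by simp [sig])
      | lim e u => exact absurd h3 (by simp [T.isY])
      | fib z l k =>
        simp only [sig, List.cons.injEq] at h2
        obtain ⟨rfl, h5⟩ := h2
        exact ⟨⟨z, h4.1⟩, ⟨l, h4.2.2.1⟩, rfl, h4.2.1, h4.2.2.2, h5⟩
    choose z l hxe hzY hlL hzs using hdec
    by_cases h : ∃ τ, {n | (l n).1.t = τ}.Infinite
    · right
      obtain ⟨τ, hτ⟩ := h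
      have : Infinite {n | (l n).1.t = τ} := hτ.to_subtype
      have : DecidablePred (· ∈ {n | (l n).1.t = τ}) := Classical.decPred _
      set φ := Nat.orderEmbeddingOfSet {n | (l n).1.t = τ} with hφ
      intro hc
      have h1 : ¬ (CC (x ∘ φ)).Countable := by
        apply cc_const (hx.comp φ.injective)
        have h2 : ∀ n, ((x ∘ φ) n).1.t = Info.fib m τ := by
          intro n
          have h3 : φ n ∈ {n | (l n).1.t = τ} := oes_mem _ n
          have h4 : (l (φ n)).1.t = τ := h3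
          change (x (φ n)).1.t = _
          rw [hxe, T.t, h4]
        intro n
        rw [h2, h2]
      exact h1 (hc.mono (cc_comp φ.strictMono))
    · push Not at h
      have hfin : ∀ a : Set Info, a.Finite → {n | (l n).1.t ∈ a}.Finite := by
        intro a ha
        have h1 : {n | (l n).1.t ∈ a} ⊆ ⋃ τ ∈ a, {n | (l n).1.t = τ} := by
          intro n hn
          exact mem_biUnion (x := (l n).1.t) hn rfl
        exact (ha.biUnion (fun τ _ => by simpa using h τ)).subset h1
      by_cases h' : ∃ z0, {n | z n = z0}.Infinite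
      · left
        obtain ⟨z0, hz0⟩ := h'
        obtain ⟨n0, hn0⟩ := hz0.nonempty
        refine ⟨z0, ?_, ?_, ?_⟩
        · rw [← (hn0 : z n0 = z0)]; exact hzY n0
        · rw [← (hn0 : z n0 = z0), hzs n0]; simp
        · rw [freq_iff]
          intro H a k hH hz ha
          refine (hz0.sdiff (hfin a ha)).mono ?_
          rintro n ⟨hn, hn'⟩
          change inU H a k (x n).1
          rw [hxe n]
          refine Or.inr (Or.inl ⟨?_, hn'⟩)
          have hn2 : z n = z0 := hn
          rw [hn2]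
          exact inU_of_mem hz
      · push Not at h'
        obtain ⟨φ, hφ, hinj⟩ := exists_inj_sub (f := z) (fun y => by simpa using h' y)
        have htr : ∀ w : P Y₀, MapClusterPt w atTop (z ∘ φ) → MapClusterPt w atTop x := by
          intro w hw
          have h1 : MapClusterPt w atTop (x ∘ φ) := by
            rw [freq_iff] at hw ⊢
            intro H a k hH hz ha
            have h2 := hw H a k hH hz ha
            have h3 : {n | (l (φ n)).1.t ∈ a}.Finite :=
              (hfin a ha).preimage (f := φ) hφ.injective.injOn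
            refine (h2.sdiff h3).mono ?_
            rintro n ⟨hn, hn'⟩
            change inU H a k (x (φ n)).1
            rw [hxe (φ n)]
            exact Or.inr (Or.inl ⟨hn, hn'⟩)
          exact h1.of_comp hφ.tendsto_atTop
        rcases ih (z ∘ φ) hinj (fun n => hzY _) (fun n => hzs _) with ⟨w, h1, h2, h3⟩ | h1
        · left
          exact ⟨w, h1, by simp only [List.length_cons]; omega, htr w h3⟩
        · right
          intro hc
          apply h1
          refine hc.mono ?_
          rintro τ ⟨w, h2, h3, h4⟩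
          exact ⟨w, h2, h3, htr w h4⟩

theorem mem_of_cluster {F : Set (P Y₀)} (hF : IsClosed F) {x : ℕ → P Y₀} (hx : ∀ n, x n ∈ F)
    {w : P Y₀} (hw : MapClusterPt w atTop x) : w ∈ F := by
  by_contra hcon
  have h1 : Fᶜ ∈ 𝓝 w := hF.isOpen_compl.mem_nhds hcon
  obtain ⟨n, hn⟩ := (mapClusterPt_iff_frequently.1 hw _ h1).exists
  exact hn (hx n)

/-- the colours in a set -/
def colF (F : Set (P Y₀)) : Set Info := {τ | ∃ l ∈ F, l.1.isL ∧ l.1.t = τ}

theorem cc_sub {F : Set (P Y₀)} (hF : IsClosed F) {x : ℕ → P Y₀} (hx : ∀ n, x n ∈ F) :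
    CC x ⊆ colF F := by
  rintro τ ⟨l, h1, h2, h3⟩
  exact ⟨l, mem_of_cluster hF hx h3, h1, h2⟩

/-- Closed sets with countably many colours are Lindelof. -/
theorem lindelof_of_colours {F : Set (P Y₀)} (hF : IsClosed F) (hc : (colF F).Countable)
    {W : P Y₀ → Set (P Y₀)} (hW : ∀ x ∈ F, IsOpen (W x) ∧ x ∈ W x) :
    ∃ G ⊆ F, G.Countable ∧ F ⊆ ⋃ x ∈ G, W x := by
  classical
  have hL : {l ∈ F | l.1.isL}.Countable := by
    have h1 : {l ∈ F | l.1.isL} ⊆ ⋃ τ ∈ colF F, {l ∈ F | l.1.isL ∧ l.1.t = τ} := by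
      rintro l ⟨h1, h2⟩
      exact mem_biUnion (x := l.1.t) ⟨l, h1, h2, rfl⟩ ⟨h1, h2, rfl⟩
    refine (hc.biUnion (fun τ _ => ?_)).mono h1
    apply Set.Finite.countable
    by_contra hinf
    have hinf' : {l ∈ F | l.1.isL ∧ l.1.t = τ}.Infinite := hinf
    set em := hinf'.natEmbedding with hem
    have h2 : ¬ (CC (fun n => ((em n : {l ∈ F | l.1.isL ∧ l.1.t = τ}) : P Y₀))).Countable := by
      apply cc_const
      · intro n m h
        exact em.injective (Subtype.ext h)
      · intro n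
        rw [(em n).2.2.2, (em 0).2.2.2]
    exact h2 (hc.mono (cc_sub hF (fun n => (em n).2.1)))
  have hY : ∀ k : ℕ, ∃ G ⊆ F, G.Countable ∧ ∀ x ∈ F, x.1.isY → (sig x.1).length < k →
      x ∈ ⋃ x ∈ G, W x := by
    intro k
    induction k with
    | zero => exact ⟨∅, empty_subset _, countable_empty, fun x _ _ h => absurd h (by simp)⟩
    | succ k ih =>
      obtain ⟨G, hGF, hGc, hG⟩ := ih
      set V : Set (P Y₀) := ⋃ x ∈ G, W x with hV
      have hVo : IsOpen V := isOpen_biUnion (fun x hx => (hW x (hGF hx)).1)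
      have hfin : ∀ σ : List ℕ, σ.length = k →
          {x ∈ F | x.1.isY ∧ sig x.1 = σ ∧ x ∉ V}.Finite := by
        intro σ hσ
        by_contra hinf
        have hinf' : {x ∈ F | x.1.isY ∧ sig x.1 = σ ∧ x ∉ V}.Infinite := hinf
        set em := hinf'.natEmbedding with hem
        set x : ℕ → P Y₀ := fun n => ((em n : {x ∈ F | x.1.isY ∧ sig x.1 = σ ∧ x ∉ V}) : P Y₀)
          with hx
        have hxinj : Function.Injective x := fun n m h => em.injective (Subtype.ext h)
        have hxF : ∀ n, x n ∈ F := fun n => (em n).2.1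
        rcases dichotomy σ x hxinj (fun n => (em n).2.2.1) (fun n => (em n).2.2.2.1) with
          ⟨z, h1, h2, h3⟩ | h1
        · have h4 : z ∈ V := hG z (mem_of_cluster hF hxF h3) h1 (by rw [hσ] at h2; exact h2)
          obtain ⟨n, hn⟩ := (mapClusterPt_iff_frequently.1 h3 _ (hVo.mem_nhds h4)).exists
          exact (em n).2.2.2.2 hn
        · exact h1 (hc.mono (cc_sub hF hxF))
      refine ⟨G ∪ ⋃ σ : {σ : List ℕ // σ.length = k}, {x ∈ F | x.1.isY ∧ sig x.1 = σ.1 ∧ x ∉ V},
        union_subset hGF (iUnion_subset (fun σ x hx => hx.1)),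
        hGc.union (countable_iUnion (fun σ => (hfin σ.1 σ.2).countable)), ?_⟩
      intro x hxF hxY hlen
      rcases Nat.lt_succ_iff_lt_or_eq.1 hlen with h | h
      · obtain ⟨y, hy, hxy⟩ := mem_iUnion₂.1 (hG x hxF hxY h)
        exact mem_biUnion (Or.inl hy) hxy
      · by_cases hxV : x ∈ V
        · obtain ⟨y, hy, hxy⟩ := mem_iUnion₂.1 hxV
          exact mem_biUnion (Or.inl hy) hxy
        · refine mem_biUnion (x := x) (Or.inr (mem_iUnion.2 ⟨⟨sig x.1, h⟩, hxF, hxY, rfl, hxV⟩)) ?_
          exact (hW x hxF).2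
  choose G hGF hGc hG using hY
  refine ⟨{l ∈ F | l.1.isL} ∪ ⋃ k, G k, union_subset (fun x hx => hx.1) (iUnion_subset hGF),
    hL.union (countable_iUnion hGc), ?_⟩
  intro x hxF
  by_cases hx : x.1.isL
  · exact mem_biUnion (x := x) (Or.inl ⟨hxF, hx⟩) (hW x hxF).2
  · have hxY : x.1.isY := by
      generalize x.1 = w at hx
      cases w with
      | pt y => trivial
      | fib z l m => trivial
      | lim e u => exact absurd trivial hx
    obtain ⟨y, hy, hxy⟩ := mem_iUnion₂.1 (hG ((sig x.1).length + 1) x hxF hxY (Nat.lt_succ_self _))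
    exact mem_biUnion (Or.inr (mem_iUnion.2 ⟨_, hy⟩)) hxy

/-- Basic sets meet neighbourhoods of limit points of new colours. -/
theorem meets {H H' : Set (T Y₀)} {a a' : Set Info} {m m' : ℕ} (hH : Hc H) {l : T Y₀}
    (hlv : l.valid) (hlL : l.isL) (hl : l ∈ H') (hla : l.t ∉ a) (y : T Y₀) (hyv : y.valid)
    (hy : y ∈ H) : ∃ w : T Y₀, w.valid ∧ inU H a m w ∧ inU H' a' m' w := by
  induction y with
  | pt y =>
    exact ⟨T.fib (T.pt y) l m', ⟨hyv, trivial, hlv, hlL⟩, Or.inr (Or.inl ⟨inU_of_mem hy, hla⟩),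
      Or.inr (Or.inr ⟨hl, hlL, le_rfl⟩)⟩
  | fib z l' k ihz ihl =>
    exact ⟨T.fib (T.fib z l' k) l m', ⟨hyv, trivial, hlv, hlL⟩,
      Or.inr (Or.inl ⟨inU_of_mem hy, hla⟩), Or.inr (Or.inr ⟨hl, hlL, le_rfl⟩)⟩
  | lim e u ih =>
    have h1 : {n | e n ∈ H} ∩ {n | (e n).valid} ∈ u := Filter.inter_mem (hH e u hy) hyv.2.2
    obtain ⟨n, hn, hn'⟩ := Ultrafilter.nonempty_of_mem h1
    exact ih n hn' hn

/-- The covering property. -/
theorem covering {ι : Type*} [Countable ι] {F : Set (P Y₀)} (hF : IsClosed F)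
    (U : ι → Set (Set (P Y₀))) (hUo : ∀ i, ∀ V ∈ U i, IsOpen V) (hcov : F ⊆ ⋃ i, ⋃₀ (U i)) :
    ∃ V : ι → Set (Set (P Y₀)), (∀ i, V i ⊆ U i ∧ (V i).Countable) ∧
      F ⊆ ⋃ i, closure (⋃₀ (V i)) := by
  classical
  by_cases h : ∃ i, {τ | ∃ l ∈ F, l.1.isL ∧ l ∈ ⋃₀ (U i) ∧ l.1.t = τ}.Infinite
  · obtain ⟨i, hi⟩ := h
    set em := hi.natEmbedding with hem
    have h1 : ∀ n, ∃ l ∈ F, l.1.isL ∧ l ∈ ⋃₀ (U i) ∧ l.1.t = (em n : Info) := fun n => (em n).2
    choose l hlF hlL hlU hlt using h1
    choose W hWU hlW using hlU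
    refine ⟨fun j => if j = i then range W else ∅, ?_, ?_⟩
    · intro j
      by_cases hj : j = i
      · subst hj
        simp only [if_true]
        exact ⟨by rintro _ ⟨n, rfl⟩; exact hWU n, countable_range W⟩
      · simp only [hj, if_false]
        exact ⟨empty_subset _, countable_empty⟩
    · intro x _
      refine mem_iUnion.2 ⟨i, ?_⟩
      simp only [if_true]
      rw [mem_closure_iff_nhds]
      intro s hs
      obtain ⟨H, a, m, h1, h2, h3, h4⟩ := mem_nhds_iffP.1 hs
      have h5 : ∃ n, (l n).1.t ∉ a := by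
        by_contra hcon
        push Not at hcon
        have h6 : range (fun n => (em n : Info)) ⊆ a := by
          rintro _ ⟨n, rfl⟩
          change (em n : Info) ∈ a
          rw [← hlt n]
          exact hcon n
        refine Set.infinite_range_of_injective ?_ (h3.subset h6)
        intro n k hnk
        exact em.injective (Subtype.ext hnk)
      obtain ⟨n, hn⟩ := h5
      obtain ⟨H', a', m', h1', h2', h3', h4'⟩ := isOpen_iffP.1 (hUo i _ (hWU n)) (l n) (hlW n)
      obtain ⟨w, hw, hw1, hw2⟩ := meets (m := m) (m' := m') (a' := a') h1 (l n).2 (hlL n) h2' hn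
        x.1 x.2 h2
      exact ⟨⟨w, hw⟩, h4 hw1, mem_sUnion.2 ⟨_, ⟨n, rfl⟩, h4' hw2⟩⟩
  · push Not at h
    have hc : (colF F).Countable := by
      have h1 : colF F ⊆ ⋃ i, {τ | ∃ l ∈ F, l.1.isL ∧ l ∈ ⋃₀ (U i) ∧ l.1.t = τ} := by
        rintro τ ⟨l, h1, h2, h3⟩
        obtain ⟨i, hi⟩ := mem_iUnion.1 (hcov h1)
        exact mem_iUnion.2 ⟨i, l, h1, h2, hi, h3⟩
      exact (countable_iUnion (fun i => (by simpa using h i : Set.Finite _).countable)).mono h1
    have h1 : ∀ x ∈ F, ∃ V : Set (P Y₀), (∃ i, V ∈ U i) ∧ x ∈ V := by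
      intro x hx
      obtain ⟨i, V, hV, hxV⟩ := mem_iUnion.1 (hcov hx)
      exact ⟨V, ⟨i, hV⟩, hxV⟩
    choose! W hWU hxW using h1
    obtain ⟨G, hGF, hGc, hG⟩ := lindelof_of_colours hF hc (W := W) (fun x hx => by
      obtain ⟨i, hi⟩ := hWU x hx
      exact ⟨hUo i _ hi, hxW x hx⟩)
    refine ⟨fun i => (W '' G) ∩ U i, fun i => ⟨inter_subset_right,
      (hGc.image W).mono inter_subset_left⟩, ?_⟩
    intro x hx
    obtain ⟨y, hy, hxy⟩ := mem_iUnion₂.1 (hG hx)
    obtain ⟨i, hi⟩ := hWU y (hGF hy)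
    exact mem_iUnion.2 ⟨i, subset_closure (mem_sUnion.2 ⟨_, ⟨mem_image_of_mem W hy, hi⟩, hxy⟩)⟩

end Pool.Agent.R820.SQ
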