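import Mathlib

/-!
# Definitions for the strict quasi-Lindelof counterexample (MP_f2a227_gt)
-/

open Set Filter Topology Cardinal

namespace Pool.Agent.R820.SQ

/-- Terms. -/
inductive T (Y₀ : Type) : Type
  | pt : Y₀ → T Y₀
  | fib : T Y₀ → T Y₀ → ℕ → T Y₀
  | lim : (ℕ → T Y₀) → Ultrafilter ℕ → T Y₀

/-- Types (colours) of terms. -/
inductive Info : Type
  | root : Info
  | fib : ℕ → Info → Info
  | lim : Info → Ultrafilter ℕ → Info

variable {Y₀ : Type}

/-- The type of a term. -/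
noncomputable def T.t : T Y₀ → Info
  | .pt _ => .root
  | .fib _ l m => .fib m l.t
  | .lim e u => .lim (e 0).t u

def T.isY : T Y₀ → Prop
  | .pt _ => True
  | .fib _ _ _ => True
  | .lim _ _ => False

def T.isL : T Y₀ → Prop
  | .pt _ => False
  | .fib _ _ _ => False
  | .lim _ _ => True

/-- sequences eligible for the almost disjoint family -/
def Elig (e : ℕ → T Y₀) : Prop := Function.Injective e ∧ ∀ n, (e n).t = (e 0).t

/-- almost disjoint families of eligible sequences -/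
def IsAD (S : Set (ℕ → T Y₀)) : Prop :=
  (∀ e ∈ S, Elig e) ∧ ∀ e ∈ S, ∀ e' ∈ S, e ≠ e' → (range e ∩ range e').Finite

theorem exists_mad : ∃ S : Set (ℕ → T Y₀), IsAD S ∧
    ∀ e, Elig e → ∃ e' ∈ S, (range e' ∩ range e).Infinite := by
  obtain ⟨S, hS⟩ := zorn_subset {S : Set (ℕ → T Y₀) | IsAD S} (by
    intro c hc hchain
    refine ⟨⋃₀ c, ⟨?_, ?_⟩, fun s hs => subset_sUnion_of_mem hs⟩
    · rintro e ⟨s, hs, he⟩
      exact (hc hs).1 e he
    · rintro e ⟨s, hs, he⟩ e' ⟨s', hs', he'⟩ hne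
      rcases hchain.total hs hs' with h | h
      · exact (hc hs').2 e (h he) e' he' hne
      · exact (hc hs).2 e he e' (h he') hne)
  refine ⟨S, hS.prop, ?_⟩
  intro e he
  by_contra hcon
  push Not at hcon
  have hcon' : ∀ e' ∈ S, (range e' ∩ range e).Finite := by
    intro e' he'
    have := hcon e' he'
    simpa [Set.not_infinite] using this
  have h1 : IsAD (insert e S) := by
    refine ⟨?_, ?_⟩
    · rintro e' (rfl | h)
      · exact he
      · exact hS.prop.1 e' h
    · rintro e1 (rfl | h1) e2 (rfl | h2) hne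
      · exact absurd rfl hne
      · rw [inter_comm]; exact hcon' e2 h2
      · exact hcon' e1 h1
      · exact hS.prop.2 e1 h1 e2 h2 hne
  have h2 : e ∈ S := by
    have := hS.le_of_ge (y := insert e S) h1 (subset_insert e S)
    exact this (mem_insert e S)
  have h3 := hcon' e h2
  rw [inter_self] at h3
  exact (Set.infinite_range_of_injective he.1) h3

/-- The maximal almost disjoint family. -/
noncomputable def MAD (Y₀ : Type) : Set (ℕ → T Y₀) := (exists_mad (Y₀ := Y₀)).choose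

theorem MAD_elig {e : ℕ → T Y₀} (he : e ∈ MAD Y₀) : Elig e :=
  (exists_mad (Y₀ := Y₀)).choose_spec.1.1 e he

theorem MAD_ad {e e' : ℕ → T Y₀} (he : e ∈ MAD Y₀) (he' : e' ∈ MAD Y₀) (hne : e ≠ e') :
    (range e ∩ range e').Finite :=
  (exists_mad (Y₀ := Y₀)).choose_spec.1.2 e he e' he' hne

theorem MAD_hit {e : ℕ → T Y₀} (he : Elig e) : ∃ e' ∈ MAD Y₀, (range e' ∩ range e).Infinite :=
  (exists_mad (Y₀ := Y₀)).choose_spec.2 e he

/-- Valid terms. -/
def T.valid : T Y₀ → Prop
  | .pt _ => True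
  | .fib z l _ => z.valid ∧ z.isY ∧ l.valid ∧ l.isL
  | .lim e u => e ∈ MAD Y₀ ∧ (u : Filter ℕ) ≤ cofinite ∧ {n | (e n).valid} ∈ u

/-- Basic sets. -/
def inU (H : Set (T Y₀)) (a : Set Info) (m : ℕ) : T Y₀ → Prop
  | .pt y => T.pt y ∈ H
  | .fib z l k => T.fib z l k ∈ H ∨ (inU H a m z ∧ l.t ∉ a) ∨ (l ∈ H ∧ l.isL ∧ m ≤ k)
  | .lim e u => T.lim e u ∈ H

/-- Hull-closed sets. -/
def Hc (H : Set (T Y₀)) : Prop := ∀ e u, T.lim e u ∈ H → {n | e n ∈ H} ∈ u

theorem inU_of_mem {H : Set (T Y₀)} {a : Set Info} {m : ℕ} {x : T Y₀} (hx : x ∈ H) :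
    inU H a m x := by
  cases x with
  | pt y => exact hx
  | fib z l k => exact Or.inl hx
  | lim e u => exact hx

theorem inU_mono {H H' : Set (T Y₀)} {a a' : Set Info} {m m' : ℕ} (hH : H ⊆ H') (ha : a' ⊆ a)
    (hm : m' ≤ m) {x : T Y₀} (hx : inU H a m x) : inU H' a' m' x := by
  induction x with
  | pt y => exact hH hx
  | fib z l k ihz ihl =>
    rcases hx with h | ⟨h1, h2⟩ | ⟨h1, hl, h2⟩
    · exact Or.inl (hH h)
    · exact Or.inr (Or.inl ⟨ihz h1, fun h => h2 (ha h)⟩)
    · exact Or.inr (Or.inr ⟨hH h1, hl, hm.trans h2⟩)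
  | lim e u ih => exact hH hx

theorem Hc_inter {H H' : Set (T Y₀)} (h : Hc H) (h' : Hc H') : Hc (H ∩ H') := by
  rintro e u ⟨h1, h2⟩
  exact Filter.inter_mem (h e u h1) (h' e u h2)

theorem Hc_singleton {x : T Y₀} (hx : x.isY) : Hc ({x} : Set (T Y₀)) := by
  rintro e u h
  rw [mem_singleton_iff] at h
  subst h
  exact absurd hx (by simp [T.isY])

/-- A point of a basic set outside of the hull generates its own basic set. -/
theorem inU_singleton {H : Set (T Y₀)} {a : Set Info} {m : ℕ} {x : T Y₀} (hx : inU H a m x)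
    (hY : x.isY) {y : T Y₀} (hy : inU {x} a m y) : inU H a m y := by
  induction y with
  | pt y =>
    have : T.pt y = x := hy
    rw [this]; exact hx
  | fib z l k ihz ihl =>
    rcases hy with h | ⟨h1, h2⟩ | ⟨h1, hl, h2⟩
    · rw [mem_singleton_iff] at h
      rw [h]; exact hx
    · exact Or.inr (Or.inl ⟨ihz h1, h2⟩)
    · rw [mem_singleton_iff] at h1
      subst h1
      cases l with
      | pt y => exact absurd hl (by simp [T.isL])
      | fib z l k => exact absurd hl (by simp [T.isL])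
      | lim e u => exact absurd hY (by simp [T.isY])
  | lim e u ih =>
    have : T.lim e u = x := hy
    rw [this]; exact hx

end Pool.Agent.R820.SQ
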