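import Pool.Agent.R820.SQ.Defs

open Set Filter Topology Cardinal

namespace Pool.Agent.R820.SQ

variable {Y₀ : Type}

/-- The space. -/
def P (Y₀ : Type) : Type := {x : T Y₀ // x.valid}

/-- The basic set of the space. -/
def bas (H : Set (T Y₀)) (a : Set Info) (m : ℕ) : Set (P Y₀) := {y | inU H a m y.1}

instance : TopologicalSpace (P Y₀) where
  IsOpen W := ∀ x ∈ W, ∃ (H : Set (T Y₀)) (a : Set Info) (m : ℕ), Hc H ∧ x.1 ∈ H ∧ a.Finite ∧
    bas H a m ⊆ W
  isOpen_univ := by
    intro x _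
    exact ⟨univ, ∅, 0, fun e u _ => Filter.univ_mem' (fun n => mem_univ _), mem_univ _,
      finite_empty, subset_univ _⟩
  isOpen_inter := by
    rintro W W' h h' x ⟨hx, hx'⟩
    obtain ⟨H, a, m, h1, h2, h3, h4⟩ := h x hx
    obtain ⟨H', a', m', h1', h2', h3', h4'⟩ := h' x hx'
    refine ⟨H ∩ H', a ∪ a', max m m', Hc_inter h1 h1', ⟨h2, h2'⟩, h3.union h3', ?_⟩
    intro y hy
    exact ⟨h4 (inU_mono inter_subset_left subset_union_left (le_max_left _ _) hy),
      h4' (inU_mono inter_subset_right subset_union_right (le_max_right _ _) hy)⟩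
  isOpen_sUnion := by
    rintro s hs x ⟨W, hW, hx⟩
    obtain ⟨H, a, m, h1, h2, h3, h4⟩ := hs W hW x hx
    exact ⟨H, a, m, h1, h2, h3, h4.trans (subset_sUnion_of_mem hW)⟩

theorem isOpen_iffP {W : Set (P Y₀)} : IsOpen W ↔ ∀ x ∈ W, ∃ (H : Set (T Y₀)) (a : Set Info)
    (m : ℕ), Hc H ∧ x.1 ∈ H ∧ a.Finite ∧ bas H a m ⊆ W := Iff.rfl

theorem isOpen_bas {H : Set (T Y₀)} {a : Set Info} {m : ℕ} (hH : Hc H) (ha : a.Finite) :
    IsOpen (bas H a m) := by
  rw [isOpen_iffP]
  intro x hx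
  by_cases hxH : x.1 ∈ H
  · exact ⟨H, a, m, hH, hxH, ha, subset_rfl⟩
  · have hY : x.1.isY := by
      obtain ⟨x, hv⟩ := x
      cases x with
      | pt y => exact absurd hx hxH
      | fib z l k => trivial
      | lim e u => exact absurd hx hxH
    exact ⟨{x.1}, a, m, Hc_singleton hY, rfl, ha, fun y hy => inU_singleton hx hY hy⟩

theorem mem_nhds_iffP {W : Set (P Y₀)} {x : P Y₀} : W ∈ 𝓝 x ↔ ∃ (H : Set (T Y₀)) (a : Set Info)
    (m : ℕ), Hc H ∧ x.1 ∈ H ∧ a.Finite ∧ bas H a m ⊆ W := by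
  rw [mem_nhds_iff]
  constructor
  · rintro ⟨V, hVW, hV, hx⟩
    obtain ⟨H, a, m, h1, h2, h3, h4⟩ := isOpen_iffP.1 hV x hx
    exact ⟨H, a, m, h1, h2, h3, h4.trans hVW⟩
  · rintro ⟨H, a, m, h1, h2, h3, h4⟩
    exact ⟨_, h4, isOpen_bas h1 h3, inU_of_mem h2⟩

/-- Descendants. -/
def desc : T Y₀ → Set (T Y₀)
  | .pt y => {.pt y}
  | .fib z l k => {.fib z l k}
  | .lim e u => insert (.lim e u) (⋃ n, desc (e n))

theorem self_mem_desc (x : T Y₀) : x ∈ desc x := by
  cases x with
  | pt y => exact rfl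
  | fib z l k => exact rfl
  | lim e u => exact mem_insert _ _

theorem desc_countable (x : T Y₀) : (desc x).Countable := by
  induction x with
  | pt y => exact countable_singleton _
  | fib z l k _ _ => exact countable_singleton _
  | lim e u ih => exact (countable_iUnion ih).insert _

theorem desc_lim {x : T Y₀} {e : ℕ → T Y₀} {u : Ultrafilter ℕ} (h : T.lim e u ∈ desc x) (n : ℕ) :
    e n ∈ desc x := by
  induction x with
  | pt y => exact absurd h (by simp [desc])
  | fib z l k _ _ => exact absurd h (by simp [desc])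
  | lim e' u' ih =>
    rcases h with h | h
    · simp only [T.lim.injEq] at h
      obtain ⟨rfl, rfl⟩ := h
      exact mem_insert_of_mem _ (mem_iUnion.2 ⟨n, self_mem_desc _⟩)
    · obtain ⟨k, hk⟩ := mem_iUnion.1 h
      exact mem_insert_of_mem _ (mem_iUnion.2 ⟨k, ih k hk⟩)

theorem Hc_desc (x : T Y₀) : Hc (desc x) := by
  intro e u h
  exact Filter.univ_mem' (fun n => desc_lim h n)

/-- Subtypes of a type. -/
def sub : Info → Set Info
  | .root => {.root}
  | .fib m τ => {.fib m τ}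
  | .lim τ u => insert (.lim τ u) (sub τ)

theorem self_mem_sub (τ : Info) : τ ∈ sub τ := by
  cases τ with
  | root => exact rfl
  | fib m τ => exact rfl
  | lim τ u => exact mem_insert _ _

theorem sub_finite (τ : Info) : (sub τ).Finite := by
  induction τ with
  | root => exact finite_singleton _
  | fib m τ _ => exact finite_singleton _
  | lim τ u ih => exact ih.insert _

theorem sub_lim {σ τ : Info} {u : Ultrafilter ℕ} (h : Info.lim τ u ∈ sub σ) : τ ∈ sub σ := by
  induction σ with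
  | root => exact absurd h (by simp [sub])
  | fib m σ _ => exact absurd h (by simp [sub])
  | lim σ v ih =>
    rcases h with h | h
    · simp only [Info.lim.injEq] at h
      obtain ⟨rfl, rfl⟩ := h
      exact mem_insert_of_mem _ (self_mem_sub _)
    · exact mem_insert_of_mem _ (ih h)

/-- Finitely many ultrafilters have disjoint members. -/
theorem sep_finite (U : Set (Ultrafilter ℕ)) (hU : U.Finite) : ∃ A : Ultrafilter ℕ → Set ℕ,
    (∀ u ∈ U, A u ∈ u) ∧ ∀ u ∈ U, ∀ v ∈ U, u ≠ v → Disjoint (A u) (A v) := by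
  classical
  have h1 : ∀ u v : Ultrafilter ℕ, u ≠ v → ∃ B : Set ℕ, B ∈ u ∧ B ∉ v := by
    intro u v huv
    by_contra hcon
    push Not at hcon
    exact huv (Ultrafilter.coe_le_coe.1 (fun B hB => by
      by_contra hB'
      have h2 : Bᶜ ∈ u := Ultrafilter.compl_mem_iff_notMem.2 hB'
      have h3 := hcon _ h2
      exact (Ultrafilter.compl_mem_iff_notMem.1 h3) hB))
  choose! B hB hB' using h1
  refine ⟨fun u => ⋂ v ∈ {v ∈ U | u ≠ v}, (B u v ∩ (B v u)ᶜ), ?_, ?_⟩
  · intro u hu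
    refine (Filter.biInter_mem (hU.subset (fun v hv => hv.1))).2 ?_
    rintro v ⟨hv, huv⟩
    exact Filter.inter_mem (hB u v huv) (Ultrafilter.compl_mem_iff_notMem.2 (hB' v u huv.symm))
  · intro u hu v hv huv
    rw [Set.disjoint_left]
    intro n hn hn'
    have h2 := mem_iInter₂.1 hn v ⟨hv, huv⟩
    have h3 := mem_iInter₂.1 hn' u ⟨hu, huv.symm⟩
    exact h3.2 h2.1

/-- Disjointness of basic sets. -/
theorem inU_disjoint {H H' : Set (T Y₀)} {a : Set Info} {m : ℕ} (hd : Disjoint H H')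
    (h1 : ∀ w l k, T.fib w l k ∈ H ∪ H' → l.t ∈ a ∧ k < m) (h2 : ∀ l ∈ H ∪ H', l.t ∈ a)
    (x : T Y₀) : ¬ (inU H a m x ∧ inU H' a m x) := by
  have hd' : ∀ y, y ∈ H → y ∈ H' → False := fun y hy hy' => Set.disjoint_left.1 hd hy hy'
  induction x with
  | pt y => exact fun h => hd' _ h.1 h.2
  | lim e u ih => exact fun h => hd' _ h.1 h.2
  | fib z l k ihz ihl =>
    rintro ⟨h | ⟨h, h'⟩ | ⟨h, hl, h'⟩, g | ⟨g, g'⟩ | ⟨g, gl, g'⟩⟩
    · exact hd' _ h g
    · exact g' (h1 _ _ _ (Or.inl h)).1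
    · have := (h1 _ _ _ (Or.inl h)).2
      omega
    · exact h' (h1 _ _ _ (Or.inr g)).1
    · exact ihz ⟨h, g⟩
    · exact h' (h2 _ (Or.inr g))
    · have := (h1 _ _ _ (Or.inr g)).2
      omega
    · exact g' (h2 _ (Or.inl h))
    · exact hd' _ h g

/-- Main separation lemma: distinct valid terms have disjoint hulls with finitely many types. -/
theorem exists_hulls {x x' : T Y₀} (hx : x.valid) (hx' : x'.valid) (hne : x ≠ x') :
    ∃ H H' : Set (T Y₀), Hc H ∧ Hc H' ∧ x ∈ H ∧ x' ∈ H' ∧ Disjoint H H' ∧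
      (∀ y ∈ H ∪ H', y.t ∈ sub x.t ∪ sub x'.t) := by
  classical
  set TT : Set Info := sub x.t ∪ sub x'.t with hTT
  have hTTfin : TT.Finite := (sub_finite _).union (sub_finite _)
  have hTTlim : ∀ {τ u}, Info.lim τ u ∈ TT → τ ∈ TT := by
    rintro τ u (h | h)
    · exact Or.inl (sub_lim h)
    · exact Or.inr (sub_lim h)
  set UU : Set (Ultrafilter ℕ) := {u | ∃ τ, Info.lim τ u ∈ TT} with hUU
  have hUUfin : UU.Finite := by
    have h1 : UU ⊆ (fun i : Info => match i with
      | .lim _ u => u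
      | .root => pure 0
      | .fib _ _ => pure 0) '' TT := by
      rintro u ⟨τ, hτ⟩
      exact ⟨_, hτ, rfl⟩
    exact (hTTfin.image _).subset h1
  obtain ⟨A, hA, hAd⟩ := sep_finite UU hUUfin
  set D : Set (T Y₀) := {y | y.valid ∧ y.t ∈ TT ∧ (y ∈ desc x ∨ y ∈ desc x')} with hD
  have hDc : D.Countable :=
    ((desc_countable x).union (desc_countable x')).mono (fun y hy => hy.2.2)
  set ED : Set (ℕ → T Y₀) := {e | ∃ u, T.lim e u ∈ D} with hED
  have hEDc : ED.Countable := by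
    have h1 : ED ⊆ (fun y : T Y₀ => match y with
      | .lim e _ => e
      | .pt y => fun _ => .pt y
      | .fib z l k => fun _ => .fib z l k) '' D := by
      rintro e ⟨u, hu⟩
      exact ⟨_, hu, rfl⟩
    exact (hDc.image _).mono h1
  obtain ⟨idx, hidx⟩ := Set.countable_iff_exists_injOn.1 hEDc
  have hEDM : ∀ e ∈ ED, e ∈ MAD Y₀ := by
    rintro e ⟨u, hu⟩
    exact hu.1.1
  set N : (ℕ → T Y₀) → Set ℕ := fun e => {n | ∀ e' ∈ ED, idx e' < idx e → e n ∉ range e'} with hN
  have hNfin : ∀ e ∈ ED, (N e)ᶜ.Finite := by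
    intro e he
    have h1 : (N e)ᶜ ⊆ ⋃ e' ∈ {e' ∈ ED | idx e' < idx e}, e ⁻¹' (range e ∩ range e') := by
      intro n hn
      simp only [hN, mem_compl_iff, Set.mem_ofPred_eq, not_forall, not_not] at hn
      obtain ⟨e', he', hlt, hr⟩ := hn
      exact mem_biUnion (x := e') ⟨he', hlt⟩ ⟨mem_range_self _, hr⟩
    refine Set.Finite.subset (Set.Finite.biUnion ?_ ?_) h1
    · refine Set.Finite.of_finite_image (f := idx) ?_ (hidx.mono (fun e' h => h.1))
      exact (Set.finite_lt_nat (idx e)).subset (by rintro _ ⟨e', h, rfl⟩; exact h.2)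
    · rintro e' ⟨he', hlt⟩
      refine Set.Finite.preimage ((MAD_elig (hEDM e he)).1.injOn) ?_
      exact MAD_ad (hEDM e he) (hEDM e' he') (fun h => by rw [h] at hlt; omega)
  let R : T Y₀ → T Y₀ → Prop := fun y z => ∃ e u n, y = T.lim e u ∧ y ∈ D ∧ z = e n ∧ z.valid ∧
    n ∈ N e ∧ n ∈ A u ∧ z ≠ x ∧ z ≠ x'
  have hRD : ∀ {y z}, R y z → z ∈ D := by
    rintro y z ⟨e, u, n, rfl, hy, rfl, hv, -⟩
    refine ⟨hv, ?_, ?_⟩
    · have h1 : (T.lim e u).t ∈ TT := hy.2.1
      have h2 : (e 0).t ∈ TT := hTTlim h1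
      rw [(MAD_elig hy.1.1).2 n]
      exact h2
    · rcases hy.2.2 with h | h
      · exact Or.inl (desc_lim h n)
      · exact Or.inr (desc_lim h n)
  have hRu : ∀ {y y' z}, R y z → R y' z → y = y' := by
    rintro y y' z ⟨e, u, n, rfl, hy, rfl, hv, hnN, hnA, -⟩
      ⟨e', u', n', rfl, hy', hz', hv', hnN', hnA', -⟩
    have heE : e ∈ ED := ⟨u, hy⟩
    have heE' : e' ∈ ED := ⟨u', hy'⟩
    have h1 : ¬ idx e' < idx e := fun h => hnN e' heE' h ⟨n', hz'.symm⟩
    have h2 : ¬ idx e < idx e' := fun h => hnN' e heE h ⟨n, hz'⟩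
    have h3 : e = e' := hidx heE heE' (by omega)
    subst h3
    have h4 : n = n' := (MAD_elig (hEDM e heE)).1 hz'
    subst h4
    have hu : u ∈ UU := ⟨_, hy.2.1⟩
    have hu' : u' ∈ UU := ⟨_, hy'.2.1⟩
    by_cases huu : u = u'
    · rw [huu]
    · exact absurd hnA' (Set.disjoint_left.1 (hAd u hu u' hu' huu) hnA)
  have hxD : x ∈ D := ⟨hx, Or.inl (self_mem_sub _), Or.inl (self_mem_desc _)⟩
  have hxD' : x' ∈ D := ⟨hx', Or.inr (self_mem_sub _), Or.inr (self_mem_desc _)⟩
  have hHD : ∀ {w z}, w ∈ D → Relation.ReflTransGen R w z → z ∈ D := by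
    intro w z hw h
    induction h with
    | refl => exact hw
    | tail _ h _ => exact hRD h
  have hHc : ∀ w ∈ D, Hc {z | Relation.ReflTransGen R w z} := by
    intro w hw e u he
    have heD : T.lim e u ∈ D := hHD hw he
    have heE : e ∈ ED := ⟨u, heD⟩
    have hev := heD.1
    have h1 : {n | (e n).valid} ∈ u := hev.2.2
    have hcof : ∀ s : Set ℕ, sᶜ.Finite → s ∈ u := fun s hs =>
      hev.2.1 (Filter.mem_cofinite.2 hs)
    have h2 : N e ∈ u := hcof _ (hNfin e heE)
    have h3 : A u ∈ u := hA u ⟨_, heD.2.1⟩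
    have hinj := (MAD_elig (hEDM e heE)).1
    have h4 : ∀ y : T Y₀, {n | e n ≠ y} ∈ u := by
      intro y
      apply hcof
      have : {n | e n ≠ y}ᶜ = e ⁻¹' {y} := by
        ext n; simp
      rw [this]
      exact (finite_singleton y).preimage hinj.injOn
    filter_upwards [h1, h2, h3, h4 x, h4 x'] with n k1 k2 k3 k4 k5
    exact Relation.ReflTransGen.tail he ⟨e, u, n, rfl, heD, rfl, k1, k2, k3, k4, k5⟩
  have hnopar : ∀ {w z}, Relation.ReflTransGen R w z → (z = x ∨ z = x') → w = z := by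
    intro w z h hz
    rcases Relation.ReflTransGen.cases_tail h with h | ⟨y, -, hy⟩
    · exact h.symm
    · obtain ⟨e, u, n, -, -, -, -, -, -, h1, h2⟩ := hy
      rcases hz with rfl | rfl
      · exact absurd rfl h1
      · exact absurd rfl h2
  refine ⟨{z | Relation.ReflTransGen R x z}, {z | Relation.ReflTransGen R x' z}, hHc x hxD,
    hHc x' hxD', Relation.ReflTransGen.refl, Relation.ReflTransGen.refl, ?_, ?_⟩
  · rw [Set.disjoint_left]
    intro z hz hz'
    have hU : Relator.RightUnique (Function.swap R) := by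
      intro a b c hab hac
      exact hRu hab hac
    have h1 : Relation.ReflTransGen (Function.swap R) z x := Relation.reflTransGen_swap.2 hz
    have h2 : Relation.ReflTransGen (Function.swap R) z x' := Relation.reflTransGen_swap.2 hz'
    rcases Relation.ReflTransGen.total_of_right_unique hU h1 h2 with h | h
    · have h3 := Relation.reflTransGen_swap.1 h
      exact hne (hnopar h3 (Or.inl rfl)).symm
    · have h3 := Relation.reflTransGen_swap.1 h
      exact hne (hnopar h3 (Or.inr rfl))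
  · rintro y (hy | hy)
    · exact (hHD hxD hy).2.1
    · exact (hHD hxD' hy).2.1

instance : T2Space (P Y₀) := by
  refine ⟨fun x x' hne => ?_⟩
  have hne' : x.1 ≠ x'.1 := fun h => hne (Subtype.ext h)
  obtain ⟨H, H', hH, hH', hx, hx', hd, ht⟩ := exists_hulls x.2 x'.2 hne'
  set TT : Set Info := sub x.1.t ∪ sub x'.1.t with hTT
  have hTTfin : TT.Finite := (sub_finite _).union (sub_finite _)
  set a : Set Info := TT ∪ (fun i : Info => match i with
      | .fib _ τ => τ
      | .root => .root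
      | .lim _ _ => .root) '' TT with ha
  have hafin : a.Finite := hTTfin.union (hTTfin.image _)
  have hbd : ((fun i : Info => match i with
      | .fib m _ => m
      | .root => 0
      | .lim _ _ => 0) '' TT).Finite := hTTfin.image _
  obtain ⟨M, hM⟩ := hbd.bddAbove
  refine ⟨bas H a (M + 1), bas H' a (M + 1), isOpen_bas hH hafin, isOpen_bas hH' hafin,
    inU_of_mem hx, inU_of_mem hx', ?_⟩
  rw [Set.disjoint_left]
  intro y hy hy'
  refine inU_disjoint hd ?_ ?_ y.1 ⟨hy, hy'⟩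
  · intro w l k hk
    have h1 := ht _ hk
    refine ⟨Or.inr ⟨_, h1, rfl⟩, ?_⟩
    have h2 := hM (mem_image_of_mem _ h1)
    have h3 : k ≤ M := h2
    omega
  · intro l hl
    exact Or.inl (ht l hl)

/-- The character is at most the cardinality of `Set ℕ × Finset Info × ℕ`. -/
theorem exists_base (x : P Y₀) : ∃ B : Set (Set (P Y₀)), #B ≤ #(Set ℕ × Finset Info × ℕ) ∧
    (∀ V ∈ B, IsOpen V ∧ x ∈ V) ∧ ∀ W ∈ 𝓝 x, ∃ V ∈ B, V ⊆ W := by
  obtain ⟨f, hf⟩ := (desc_countable x.1).exists_eq_range ⟨_, self_mem_desc _⟩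
  let g : Set ℕ × Finset Info × ℕ → Set (P Y₀) := fun p => bas (f '' p.1) (↑p.2.1) p.2.2
  refine ⟨{V ∈ range g | IsOpen V ∧ x ∈ V}, ?_, fun V hV => hV.2, ?_⟩
  · exact (Cardinal.mk_le_mk_of_subset (fun V hV => hV.1)).trans Cardinal.mk_range_le
  · intro W hW
    obtain ⟨H, a, m, h1, h2, h3, h4⟩ := mem_nhds_iffP.1 hW
    have h5 : f '' (f ⁻¹' (H ∩ desc x.1)) = H ∩ desc x.1 := by
      rw [Set.image_preimage_eq_iff]
      rw [← hf]
      exact inter_subset_right
    refine ⟨bas (H ∩ desc x.1) a m, ⟨⟨(f ⁻¹' (H ∩ desc x.1), h3.toFinset, m), ?_⟩, ?_, ?_⟩, ?_⟩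
    · simp only [g]
      rw [h5, Set.Finite.coe_toFinset]
    · exact isOpen_bas (Hc_inter h1 (Hc_desc _)) h3
    · exact inU_of_mem ⟨h2, self_mem_desc _⟩
    · exact Subset.trans (fun y hy => inU_mono inter_subset_left subset_rfl le_rfl hy) h4

/-- A code of the types. -/
def code : Info → List (ℕ ⊕ Ultrafilter ℕ)
  | .root => []
  | .fib m τ => .inl m :: code τ
  | .lim τ u => .inr u :: code τ

theorem code_inj : Function.Injective code := by
  intro τ
  induction τ with
  | root =>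
    intro σ h
    cases σ with
    | root => rfl
    | fib m σ => exact absurd h (by simp [code])
    | lim σ u => exact absurd h (by simp [code])
  | fib m τ ih =>
    intro σ h
    cases σ with
    | root => exact absurd h (by simp [code])
    | fib k σ =>
      simp only [code, List.cons.injEq, Sum.inl.injEq] at h
      rw [h.1, ih h.2]
    | lim σ u => exact absurd h (by simp [code])
  | lim τ u ih =>
    intro σ h
    cases σ with
    | root => exact absurd h (by simp [code])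
    | fib k σ => exact absurd h (by simp [code])
    | lim σ v =>
      simp only [code, List.cons.injEq, Sum.inr.injEq] at h
      rw [h.1, ih h.2]

theorem mk_ultrafilter : #(Ultrafilter ℕ) ≤ 2 ^ ((2 : Cardinal) ^ ℵ₀) := by
  have h1 : Function.Injective (fun u : Ultrafilter ℕ => {s : Set ℕ | s ∈ u}) := by
    intro u v h
    exact Ultrafilter.coe_le_coe.1 (fun s hs => by
      have h2 : s ∈ {s : Set ℕ | s ∈ v} := hs
      have h3 : {s : Set ℕ | s ∈ u} = {s : Set ℕ | s ∈ v} := h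
      rw [← h3] at h2
      exact h2)
  have h2 := Cardinal.mk_le_of_injective h1
  simpa [Cardinal.mk_set] using h2

theorem mk_info : #Info ≤ 2 ^ ((2 : Cardinal) ^ ℵ₀) := by
  have h0 : ℵ₀ ≤ (2 : Cardinal) ^ ((2 : Cardinal) ^ ℵ₀) :=
    (Cardinal.cantor ℵ₀).le.trans (Cardinal.cantor _).le
  refine (Cardinal.mk_le_of_injective code_inj).trans ?_
  refine (Cardinal.mk_list_le_max _).trans (max_le h0 ?_)
  rw [Cardinal.mk_sum]
  simp only [Cardinal.lift_id, Cardinal.mk_nat]
  exact Cardinal.add_le_of_le h0 h0 mk_ultrafilter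

theorem mk_index : #(Set ℕ × Finset Info × ℕ) ≤ 2 ^ ((2 : Cardinal) ^ ℵ₀) := by
  have h0 : ℵ₀ ≤ (2 : Cardinal) ^ ((2 : Cardinal) ^ ℵ₀) :=
    (Cardinal.cantor ℵ₀).le.trans (Cardinal.cantor _).le
  have h1 : #(Set ℕ) ≤ (2 : Cardinal) ^ ((2 : Cardinal) ^ ℵ₀) := by
    rw [Cardinal.mk_set, Cardinal.mk_nat]
    exact (Cardinal.cantor _).le
  have h2 : #(Finset Info) ≤ (2 : Cardinal) ^ ((2 : Cardinal) ^ ℵ₀) := by
    classical
    have h3 : #(Finset Info) ≤ #(List Info) :=
      Cardinal.mk_le_of_surjective (f := List.toFinset) List.toFinset_surjective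
    exact h3.trans ((Cardinal.mk_list_le_max _).trans (max_le h0 mk_info))
  rw [Cardinal.mk_prod, Cardinal.mk_prod]
  simp only [Cardinal.lift_id, Cardinal.mk_nat]
  exact Cardinal.mul_le_of_le h0 h1 (Cardinal.mul_le_of_le h0 h2 h0)

end Pool.Agent.R820.SQ
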